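import Pool.Agent.H15.KI.TargetsB
import Pool.Agent.H92.KST.KillX

/-!
# Project KEW-I: KIL
-/

set_option autoImplicit false
set_option linter.dupNamespace false

universe u

namespace Pool.Agent.H92.KI

open AlgebraicGeometry CategoryTheory TopologicalSpace Opposite Pool.Agent.H19.KN IsLocalRing
open Pool.Agent.H62.MK Pool.Agent.H84.KEW Pool.Agent.H15.KEW Pool.Agent.H92.KST
open Pool.Agent.H17.KW (kap Pts entry column dFam D dD KSh KPre topSh topFam topVal evPt Gersten AbSh)
open Pool.Agent.H14.KEW (symGerm exists_fact_thick)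
open Pool.Agent.H12.KG (Sp GenSp kA stA rho)

variable {X : Scheme.{u}} {A : Type u} [CommRing A]

open Pool.Agent.H17.KW in
/-- The map to the quotient complex factors through the K-sheaf of the thickening. -/
theorem exists_phi' [IsNoetherian X] [IsLocalRing A] (f : X ⟶ Spec (CommRingCat.of A)) {π : A}
    (hπ : maximalIdeal A = Ideal.span {π}) {q n e : ℕ} (hn : n ≠ 0)
    (w0 : topSh X (e + 1) ≫ dD X (e + 1) e = 0) :
    ∃ φ : Fsh f q (e + 1) n ⟶ TS (pt X (e + 1)) (KK X (e + 1)) (dFam X (e + 1))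
        (fun s => PP f π q n (e + 1) s) (e + 1),
      redSh (thickι f n) q (e + 1) ≫ φ = topSh X (e + 1) ≫
        qS (pt X (e + 1)) (KK X (e + 1)) (dFam X (e + 1)) (fun s => PP f π q n (e + 1) s)
          (e + 1) := by
  have key : ∀ (x : X) (V : Opens X.toTopCat) (hV : x ∈ V)
      (z : MilnorK (X.presheaf.obj (op V)) (e + 1)),
      (∀ y, y ⤳ x → topFam X (e + 1) V z ∈ PP f π q n (e + 1) (e + 1) y) →
      TopCat.Presheaf.germ (C := AddCommGrpCat.{u}) (X := X.toTopCat)
        (TS (pt X (e + 1)) (KK X (e + 1)) (dFam X (e + 1))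
          (fun s => PP f π q n (e + 1) s) (e + 1)).obj V x hV
        ((topSh X (e + 1) ≫ qS (pt X (e + 1)) (KK X (e + 1)) (dFam X (e + 1))
          (fun s => PP f π q n (e + 1) s) (e + 1)).hom.app (op V)
          ((toSheafify (Opens.grothendieckTopology X.toTopCat) (KPre X (e + 1))).app (op V) z)) =
        0 := by
    intro x V hV z hz
    refine germ_qS_eq_zero (pt X (e + 1)) (KK X (e + 1)) (dFam X (e + 1))
      (isLocalHom_dFam X (e + 1)) (fun s => PP f π q n (e + 1) s) w0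
      (fun s g => fin_PP f π q n (e + 1) s g) _ hV ?_
    intro y hy
    have h2 : gen (pt X (e + 1) (e + 1)) (KK X (e + 1) (e + 1)) y (topFam X (e + 1) V z) ∈
        PP f π q n (e + 1) (e + 1) y :=
      (gen_mem_US f π q n (e + 1) (e + 1) _ y).2 fun v hv hg => hz y hy v hv hg
    exact (congrArg (fun w => gen (pt X (e + 1) (e + 1)) (KK X (e + 1) (e + 1)) y w ∈
      PP f π q n (e + 1) (e + 1) y) (topSh_app (e + 1) V z)).mpr h2
  refine exists_fact_thick f n hπ hn q _ ?_ ?_ ?_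
  · intro x hx V hV a
    exact key x V hV _ fun y hy => mem_PP_of_not_sp f π q n _ _ hx hy _
  · intro x V hV a
    have h1 := key x V hV (q • sym a) fun y hy => by
      rw [map_nsmul]
      exact smul_mem_PP f π q n _ _ y _
    let F : MilnorK (X.presheaf.obj (op V)) (e + 1) →+ _ :=
      (TopCat.Presheaf.germ (C := AddCommGrpCat.{u}) (X := X.toTopCat)
        (TS (pt X (e + 1)) (KK X (e + 1)) (dFam X (e + 1))
          (fun s => PP f π q n (e + 1) s) (e + 1)).obj V x hV).hom.comp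
        (((topSh X (e + 1) ≫ qS (pt X (e + 1)) (KK X (e + 1)) (dFam X (e + 1))
          (fun s => PP f π q n (e + 1) s) (e + 1)).hom.app (op V)).hom.comp
          ((toSheafify (Opens.grothendieckTopology X.toTopCat) (KPre X (e + 1))).app (op V)).hom)
    exact (map_nsmul F q (sym a)).symm.trans h1
  · intro x hx V hV a j c hc
    exact key x V hV _ fun y hy => sym_mem_PP f π q n (e + 1) hV hy a j c hc

open Pool.Agent.H15.KI Pool.Agent.H17.KW in
/-- KIL: sections killed by `ρ` satisfy the conditions. -/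
theorem pf_KIL : T_KIL.{u} := by
  intro A _ _ _ X _ f π hπ q n e hn hinf μ U c hc x hx
  -- it is enough to consider a point with a condition
  by_cases hgen : ∃ v : Pts X (e + 1) (e + 1), v.1 ⤳ x ∧ GenSp f π v.1 x
  swap
  · refine (gen_mem_US f π q n (e + 1) (e + 1) _ x).2 fun v hv hg => ?_
    exact absurd ⟨v, hv, hg⟩ hgen
  obtain ⟨v₀, hv₀, hg₀⟩ := hgen
  have hS : LocSurjAt (X := X.toTopCat) μ.c x := by
    by_cases he : e = 0
    · have := (μ.zero he).1
      exact fun U hx g => locSurj_of_epi μ.c g hx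
    · exact μ.surj x (hinf he v₀ x hv₀ hg₀)
  have hI : InjAt (X := X.toTopCat) μ.c' x := by
    by_cases he : e = 0
    · have := (μ.zero he).2.2
      intro U hx s hs
      exact ⟨U, le_rfl, hx, by rw [inj_of_mono μ.c' hs, map_zero]⟩
    · exact μ.inj' x (hinf he v₀ x hv₀ hg₀)
  have w0 : topSh X (e + 1) ≫ dD X (e + 1) e = 0 := by
    rw [← μ.ct, Category.assoc, μ.res.w0, Limits.comp_zero]
  obtain ⟨φ, hφ⟩ := exists_phi' f hπ.maximalIdeal_eq (q := q) (n := n) (e := e) hn w0
  obtain ⟨r₀, hr₀⟩ : ∃ r : KSh X (e + 1) ⟶ Fsh f q (e + 1) n,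
      r = redSh (thickι f n) q (e + 1) := ⟨_, rfl⟩
  have hcρ : μ.c ≫ μ.ρ = r₀ ≫ μ.c' := by rw [hr₀]; exact μ.cρ
  have hφ' : r₀ ≫ φ = topSh X (e + 1) ≫
        qS (pt X (e + 1)) (KK X (e + 1)) (dFam X (e + 1)) (fun s => PP f π q n (e + 1) s)
          (e + 1) := by rw [hr₀]; exact hφ
  -- a local lifting of `c`
  obtain ⟨V, hV, hxV, a, ha⟩ := hS U hx c
  have h1 : μ.c'.hom.app (op V) ((r₀).hom.app (op V) a) = 0 := by
    have e1 := congrArg (fun r : KSh X (e + 1) ⟶ μ.F => r.hom.app (op V) a) hcρ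
    have e2 : μ.ρ.hom.app (op V) (μ.c.hom.app (op V) a) =
        μ.c'.hom.app (op V) ((r₀).hom.app (op V) a) := e1
    rw [← e2, ha, map_app, hc, map_zero]
  obtain ⟨W, hW, hxW, h2⟩ := hI V hxV _ h1
  let a' : (KSh X (e + 1)).obj.obj (op W) := (KSh X (e + 1)).obj.map (homOfLE hW).op a
  have h3 : (r₀).hom.app (op W) a' = 0 := by
    rw [map_app, h2]
  have h4 : (qS (pt X (e + 1)) (KK X (e + 1)) (dFam X (e + 1)) (fun s => PP f π q n (e + 1) s)
      (e + 1)).hom.app (op W) ((topSh X (e + 1)).hom.app (op W) a') = 0 := by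
    have e1 := congrArg (fun r : KSh X (e + 1) ⟶ TS (pt X (e + 1)) (KK X (e + 1))
      (dFam X (e + 1)) (fun s => PP f π q n (e + 1) s) (e + 1) => r.hom.app (op W) a') hφ'
    have e2 : φ.hom.app (op W) ((r₀).hom.app (op W) a') =
      (qS (pt X (e + 1)) (KK X (e + 1)) (dFam X (e + 1)) (fun s => PP f π q n (e + 1) s)
      (e + 1)).hom.app (op W) ((topSh X (e + 1)).hom.app (op W) a') := e1
    rw [← e2, h3, map_zero]
  obtain ⟨g, hg⟩ := lift_of_exact (iS_shortExact (pt X (e + 1)) (KK X (e + 1)) (dFam X (e + 1))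
    (fun s => PP f π q n (e + 1) s) (e + 1)) _ h4
  let g' : (US (pt X (e + 1)) (KK X (e + 1)) (dFam X (e + 1))
    (fun s => PP f π q n (e + 1) s) (e + 1)).sec W := g
  have h5 : gen (pt X (e + 1) (e + 1)) (KK X (e + 1) (e + 1)) x g'.1 ∈
      PP f π q n (e + 1) (e + 1) x :=
    (CS_le (pt X (e + 1)) (KK X (e + 1)) (dFam X (e + 1)) (fun s => PP f π q n (e + 1) s)
      (e + 1) x) (g'.2.2 x hxW)
  -- compare `topSh a'` with `t c`
  have h6 : (topSh X (e + 1)).hom.app (op W) a' =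
      (D X (e + 1) (e + 1)).obj.map (homOfLE (hW.trans hV)).op (μ.t.hom.app (op U) c) := by
    have e1 : μ.t.hom.app (op W) (μ.c.hom.app (op W) a') =
        (topSh X (e + 1)).hom.app (op W) a' :=
      congrArg (fun r : KSh X (e + 1) ⟶ D X (e + 1) (e + 1) => r.hom.app (op W) a') μ.ct
    have e3 : μ.K.obj.map (homOfLE hW).op (μ.K.obj.map (homOfLE hV).op c) =
        μ.K.obj.map (homOfLE (hW.trans hV)).op c := by
      rw [← ConcreteCategory.comp_apply, ← Functor.map_comp]
      rfl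
    have e4 : μ.c.hom.app (op W) a' = μ.K.obj.map (homOfLE hW).op (μ.c.hom.app (op V) a) :=
      map_app μ.c hW a
    rw [← e1, e4, ha, e3]
    exact map_app μ.t (hW.trans hV) c
  have h7 : g'.1 = keep (pt X (e + 1) (e + 1)) (KK X (e + 1) (e + 1)) W
      (show (E (pt X (e + 1) (e + 1)) (KK X (e + 1) (e + 1))).sec U from
        μ.t.hom.app (op U) c).1 := congrArg Subtype.val (hg.trans h6)
  rw [h7, gen_keep (pt X (e + 1) (e + 1)) hxW] at h5
  exact h5

end Pool.Agent.H92.KI
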