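import Pool.Agent.H15.KI.TargetsA

/-!
# Project KEW-I: PNT
-/

set_option autoImplicit false

universe u

namespace Pool.Agent.H92.KI

open AlgebraicGeometry CategoryTheory TopologicalSpace Opposite IsLocalRing

/-- PNT: the residue field of a point which is not closed is infinite. -/
theorem pf_PNT : Pool.Agent.H15.KI.T_PNT.{u} := by
  intro X x hx
  by_contra hcon
  rw [not_infinite_iff_finite] at hcon
  obtain ⟨y, hy, hne⟩ : ∃ y, y ∈ closure ({x} : Set X) ∧ y ≠ x := by
    by_contra h
    push Not at h
    refine hx ?_
    have h1 : closure ({x} : Set X) = {x} := by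
      refine le_antisymm (fun y hy => h y hy) subset_closure
    rw [← h1]
    exact isClosed_closure
  have hs : x ⤳ y := specializes_iff_mem_closure.2 hy
  let g : X.presheaf.stalk y →+* ResidueField (X.presheaf.stalk x) :=
    (residue (X.presheaf.stalk x)).comp (X.presheaf.stalkSpecializes hs).hom
  have hfin : Finite (X.presheaf.stalk y ⧸ RingHom.ker g) :=
    Finite.of_injective _ (RingHom.kerLift_injective g)
  have hprime : (RingHom.ker g).IsPrime := RingHom.ker_isPrime g
  have hfield : IsField (X.presheaf.stalk y ⧸ RingHom.ker g) :=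
    Finite.isField_of_domain _
  have hmax : (RingHom.ker g).IsMaximal := Ideal.Quotient.maximal_of_isField _ hfield
  have hker : RingHom.ker g = maximalIdeal (X.presheaf.stalk y) := eq_maximalIdeal hmax
  have hcomap : (maximalIdeal (X.presheaf.stalk x)).comap (X.presheaf.stalkSpecializes hs).hom =
      maximalIdeal (X.presheaf.stalk y) := by
    rw [← hker]
    ext a
    rw [Ideal.mem_comap, RingHom.mem_ker]
    exact (residue_eq_zero_iff _).symm
  have h1 : Spec.map (X.presheaf.stalkSpecializes hs) ≫ X.fromSpecStalk y =
      X.fromSpecStalk x := Scheme.SpecMap_stalkSpecializes_fromSpecStalk hs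
  have h2 : (Spec.map (X.presheaf.stalkSpecializes hs)) (closedPoint (X.presheaf.stalk x)) =
      closedPoint (X.presheaf.stalk y) := by
    apply PrimeSpectrum.ext
    exact hcomap
  have h3 : X.fromSpecStalk x (closedPoint (X.presheaf.stalk x)) = x :=
    Scheme.fromSpecStalk_closedPoint
  have h4 : X.fromSpecStalk y (closedPoint (X.presheaf.stalk y)) = y :=
    Scheme.fromSpecStalk_closedPoint
  apply hne
  rw [← h4, ← h2]
  conv_rhs => rw [← h3, ← h1]
  rfl

end Pool.Agent.H92.KI
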